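import Pool.Agent.Helper71.HN.SheetH
import Pool.Agent.Helper70.JN.Locf

/-! Project HN, row LFG: the local form at one place (after `Helper70.JN.locf1`). -/

set_option autoImplicit false

namespace Pool.Agent.Helper71.HN

open Polynomial Pool.Agent.Helper71.JN

theorem lfg_em_map {A B : Type} [CommSemiring A] [CommSemiring B] (f : A →+* B) (g : ℕ)
    (x y : A) (W : ℕ) : f (em g x y W) = em g (f x) (f y) W := by
  unfold em
  split_ifs <;> simp

section
variable {Ω : Type} [Field Ω]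

theorem lfg_sum {ι : Type} (v : AbsoluteValue Ω ℝ) (hu : ∀ a b, v (a + b) ≤ max (v a) (v b))
    (s : Finset ι) (f : ι → Ω) (C : ℝ) (hC : 0 ≤ C) (h : ∀ i ∈ s, v (f i) ≤ C) :
    v (∑ i ∈ s, f i) ≤ C := by
  refine Finset.sum_induction _ (fun z => v z ≤ C)
    (fun a b ha hb => (hu a b).trans (max_le ha hb)) ?_ h
  rw [map_zero]
  exact hC

variable [CharZero Ω]

theorem lfg_aeval_le (v : AbsoluteValue Ω ℝ) (hu : ∀ a b, v (a + b) ≤ max (v a) (v b))
    (hq : ∀ q : ℚ, q ≠ 0 → v (q : Ω) = 1) {n : ℕ} (d : Fin n → Ω) (hd : ∀ j, v (d j) ≤ 1)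
    (P : MvPolynomial (Fin n) ℚ) : v (MvPolynomial.aeval d P) ≤ 1 := by
  induction P using MvPolynomial.induction_on with
  | C a =>
    rw [MvPolynomial.aeval_C, eq_ratCast]
    by_cases h0 : a = 0
    · rw [h0, Rat.cast_zero, map_zero]
      exact zero_le_one
    · exact (hq a h0).le
  | add p q hp hq' =>
    rw [map_add]
    exact (hu _ _).trans (max_le hp hq')
  | mul_X p j hp =>
    rw [map_mul, MvPolynomial.aeval_X, map_mul]
    calc v (MvPolynomial.aeval d p) * v (d j) ≤ 1 * 1 :=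
          mul_le_mul hp (hd j) (v.nonneg _) zero_le_one
      _ = 1 := one_mul 1

theorem lfg_aeval_sub (v : AbsoluteValue Ω ℝ) (hu : ∀ a b, v (a + b) ≤ max (v a) (v b))
    (hq : ∀ q : ℚ, q ≠ 0 → v (q : Ω) = 1) {n : ℕ} (d : Fin n → Ω) (hd : ∀ j, v (d j) < 1)
    (P : MvPolynomial (Fin n) ℚ) :
    v (MvPolynomial.aeval d P -
      ((MvPolynomial.aeval (fun _ => (0 : ℚ)) P : ℚ) : Ω)) < 1 := by
  induction P using MvPolynomial.induction_on with
  | C a =>
    rw [MvPolynomial.aeval_C, MvPolynomial.aeval_C, eq_ratCast, Algebra.algebraMap_self,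
      RingHom.id_apply, sub_self, map_zero]
    exact one_pos
  | add p q hp hq' =>
    rw [map_add, map_add, Rat.cast_add, add_sub_add_comm]
    exact lt_of_le_of_lt (hu _ _) (max_lt hp hq')
  | mul_X p j hp =>
    rw [map_mul, MvPolynomial.aeval_X, map_mul, MvPolynomial.aeval_X, mul_zero, Rat.cast_zero,
      sub_zero, map_mul]
    calc v (MvPolynomial.aeval d p) * v (d j) ≤ 1 * v (d j) :=
          mul_le_mul_of_nonneg_right (lfg_aeval_le v hu hq d (fun j => (hd j).le) p) (v.nonneg _)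
      _ < 1 := by rw [one_mul]; exact hd j

theorem lfg_eval₂_le (v : AbsoluteValue Ω ℝ) (hu : ∀ a b, v (a + b) ≤ max (v a) (v b))
    (hq : ∀ q : ℚ, q ≠ 0 → v (q : Ω) = 1) {n : ℕ} (d : Fin n → Ω) (hd : ∀ j, v (d j) ≤ 1)
    (u : Ω) (hu1 : v u ≤ 1) (P : (MvPolynomial (Fin n) ℚ)[X]) :
    v (P.eval₂ (MvPolynomial.aeval d : MvPolynomial (Fin n) ℚ →ₐ[ℚ] Ω).toRingHom u) ≤ 1 := by
  induction P using Polynomial.induction_on' with
  | add p q hp hq' =>
    rw [eval₂_add]
    exact (hu _ _).trans (max_le hp hq')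
  | monomial m a =>
    rw [eval₂_monomial, map_mul]
    have h1 : v ((MvPolynomial.aeval d : MvPolynomial (Fin n) ℚ →ₐ[ℚ] Ω).toRingHom a) ≤ 1 :=
      lfg_aeval_le v hu hq d hd a
    calc v ((MvPolynomial.aeval d : MvPolynomial (Fin n) ℚ →ₐ[ℚ] Ω).toRingHom a) * v (u ^ m)
        ≤ 1 * 1 := by
          refine mul_le_mul h1 ?_ (v.nonneg _) zero_le_one
          have := Pool.Agent.Helper70.JN.v_pow_le hu1 m
          rwa [one_pow] at this
      _ = 1 := one_mul 1

/-- the form at one place, normalised coordinates -/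
theorem lfg1 (v : AbsoluteValue Ω ℝ) (hu : ∀ a b, v (a + b) ≤ max (v a) (v b))
    (hq : ∀ q : ℚ, q ≠ 0 → v (q : Ω) = 1) (hBIN : ST_BIN) (hCUSG : ST_CUSG) (g k : ℕ)
    (hk : 1 ≤ k) (θ : ℝ)
    (hθ0 : 0 < θ) (hθ1 : θ < 1) (x y : Ω) (d : Fin (2 * g + 1) → Ω)
    (hE : y ^ 2 = x ^ (2 * g + 1) + ∑ j : Fin (2 * g + 1), d j * x ^ (j : ℕ))
    (hx : v (x - 1) ≤ θ)
    (hd : ∀ j, v (d j) < 1) (hy : v (y - 1) < 1) (W : Fin k → ℕ) (w : ℕ)
    (hW : Function.Injective W) (hok : ∀ j, Ok g (W j)) :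
    ∃ c : Fin k → Ω, (∀ j, ∃ a b : MvPolynomial (Fin (2 * g + 1)) ℚ,
        MvPolynomial.aeval d b ≠ 0 ∧ c j = MvPolynomial.aeval d a / MvPolynomial.aeval d b) ∧
      v (em g x y w + ∑ j : Fin k, c j * em g x y (W j)) ≤ θ ^ k := by
  classical
  -- the truncation
  obtain ⟨j0, hj0⟩ := Finite.exists_max (fun j : Fin (2 * g + 1) => v (d j))
  set m : ℝ := max θ (v (d j0)) with hm
  have hm0 : 0 ≤ m := le_max_of_le_left hθ0.le
  have hm1 : m < 1 := max_lt hθ1 (hd j0)
  have hdm : ∀ j, v (d j) ≤ m := fun j => (hj0 j).trans (le_max_right _ _)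
  obtain ⟨K0, hK0⟩ := exists_pow_lt_of_lt_one (pow_pos hθ0 k) hm1
  set K : ℕ := max k K0 with hK
  have hKk : k ≤ K := le_max_left _ _
  have hmK : m ^ K ≤ θ ^ k :=
    (pow_le_pow_of_le_one hm0 hm1.le (le_max_right _ _)).trans hK0.le
  obtain ⟨p, -, hp0, -, ⟨u, hpu⟩, -⟩ := hBIN 2 K (by norm_num) (by omega)
  set V : (MvPolynomial (Fin (2 * g + 1)) ℚ)[X] :=
    (1 + X) ^ (2 * g + 1) - 1 +
      ∑ j : Fin (2 * g + 1), C (MvPolynomial.X j) * (1 + X) ^ (j : ℕ) with hV
  set ε : MvPolynomial (Fin (2 * g + 1)) ℚ →ₐ[ℚ] ℚ :=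
    MvPolynomial.aeval (fun _ => (0 : ℚ)) with hε
  have hVε : V.map (ε : MvPolynomial (Fin (2 * g + 1)) ℚ →+* ℚ) = (1 + X) ^ (2 * g + 1) - 1 := by
    rw [hV, Polynomial.map_add, Polynomial.map_sub, Polynomial.map_pow, Polynomial.map_add,
      Polynomial.map_one, Polynomial.map_X, Polynomial.map_sum]
    have h0 : ∀ j ∈ (Finset.univ : Finset (Fin (2 * g + 1))),
        Polynomial.map (ε : MvPolynomial (Fin (2 * g + 1)) ℚ →+* ℚ)
          (C (MvPolynomial.X j) * (1 + X) ^ (j : ℕ)) = 0 := by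
      intro j _
      rw [Polynomial.map_mul, Polynomial.map_C]
      have h1 : (ε : MvPolynomial (Fin (2 * g + 1)) ℚ →+* ℚ) (MvPolynomial.X j) = 0 := by
        show ε (MvPolynomial.X j) = 0
        rw [hε, MvPolynomial.aeval_X]
      rw [h1, C_0, zero_mul]
    rw [Finset.sum_eq_zero h0, add_zero]
  obtain ⟨c, e, he, hX⟩ := hCUSG g k K (MvPolynomial (Fin (2 * g + 1)) ℚ) ε V p u W w hk hKk hp0
    hpu hVε hW hok
  -- evaluation
  set φ : MvPolynomial (Fin (2 * g + 1)) ℚ →ₐ[ℚ] Ω := MvPolynomial.aeval d with hφ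
  set ψ : (MvPolynomial (Fin (2 * g + 1)) ℚ)[X] →+* Ω := eval₂RingHom φ.toRingHom (x - 1)
    with hψ
  have hφle : ∀ a, v (φ a) ≤ 1 := lfg_aeval_le v hu hq d (fun j => (hd j).le)
  have hψle : ∀ P, v (ψ P) ≤ 1 :=
    lfg_eval₂_le v hu hq d (fun j => (hd j).le) (x - 1) (hx.trans hθ1.le)
  have hψC : ∀ a, ψ (C a) = φ a := fun a => by simp [hψ]
  have hψX : ψ (1 + X) = x := by simp [hψ]
  have hφX : ∀ j, φ (MvPolynomial.X j) = d j := fun j => by
    rw [hφ, MvPolynomial.aeval_X]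
  -- the unit
  have he1 : v (φ e) = 1 := by
    have h1 : φ e = ((ε e : ℚ) : Ω) + (φ e - ((ε e : ℚ) : Ω)) := by ring
    have h2 := lfg_aeval_sub v hu hq d hd e
    rw [h1, Pool.Agent.Helper70.JN.v_eq_of_lt hu, hq _ he]
    rw [hq _ he]
    exact h2
  have he0 : φ e ≠ 0 := by
    intro h
    rw [h, map_zero] at he1
    exact zero_ne_one he1
  have hx1 : v x ≤ 1 := by
    have h1 : x = ((1 : ℚ) : Ω) + (x - 1) := by
      push_cast
      ring
    rw [h1]
    exact (hu _ _).trans (max_le (hq 1 one_ne_zero).le (hx.trans hθ1.le))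
  have hxp : ∀ n : ℕ, v (x ^ n) ≤ 1 := by
    intro n
    have := Pool.Agent.Helper70.JN.v_pow_le hx1 n
    rwa [one_pow] at this
  -- the square root
  set n : Ω := x ^ (2 * g + 1) + (∑ j : Fin (2 * g + 1), d j * x ^ (j : ℕ)) - 1 with hn
  have hψV : ψ V = n := by
    rw [hV, hn, map_add, map_sub, map_pow, hψX, map_one, map_sum]
    have h1 : ∑ j : Fin (2 * g + 1), ψ (C (MvPolynomial.X j) * (1 + X) ^ (j : ℕ)) =
        ∑ j : Fin (2 * g + 1), d j * x ^ (j : ℕ) := by
      refine Finset.sum_congr rfl fun j _ => ?_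
      rw [map_mul, hψC, hφX, map_pow, hψX]
    rw [h1]
    ring
  have hψY : ψ (aeval V p) = aeval n p := by
    have h1 : (ψ.comp (algebraMap ℚ (MvPolynomial (Fin (2 * g + 1)) ℚ)[X])) =
        algebraMap ℚ Ω := RingHom.ext_rat _ _
    rw [aeval_def, hom_eval₂, hψV, h1, ← aeval_def]
  have hvn : v n ≤ m := by
    have h1 : n = (∑ i ∈ Finset.range (2 * g + 1), x ^ i) * (x - 1) +
        ∑ j : Fin (2 * g + 1), d j * x ^ (j : ℕ) := by
      rw [geom_sum_mul, hn]
      ring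
    rw [h1]
    refine (hu _ _).trans (max_le ?_ ?_)
    · rw [map_mul]
      calc v (∑ i ∈ Finset.range (2 * g + 1), x ^ i) * v (x - 1) ≤ 1 * θ :=
            mul_le_mul (lfg_sum v hu _ _ 1 zero_le_one fun i _ => hxp i) hx (v.nonneg _)
              zero_le_one
        _ = θ := one_mul θ
        _ ≤ m := le_max_left _ _
    · refine lfg_sum v hu _ _ m hm0 fun j _ => ?_
      rw [map_mul]
      calc v (d j) * v (x ^ (j : ℕ)) ≤ m * 1 :=
            mul_le_mul (hdm j) (hxp _) (v.nonneg _) hm0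
        _ = m := mul_one m
  have hyn : y ^ 2 = 1 + n := by
    rw [hE, hn]
    ring
  have hτ : v (aeval n p - y) ≤ θ ^ k := by
    have h1 : (aeval n p - y) * (aeval n p + y) = n ^ K * aeval n u := by
      have h2 := congrArg (aeval n) hpu
      rw [map_sub, map_pow, map_add, map_one, aeval_X, map_mul, map_pow, aeval_X] at h2
      rw [← h2, ← hyn]
      ring
    have h2 : v (aeval n p + y) = 1 := by
      have h3 : p = C (p.coeff 0) + X * divX p := by
        conv_lhs => rw [← divX_mul_X_add p]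
        ring
      have h4 : aeval n p = 1 + n * aeval n (divX p) := by
        conv_lhs => rw [h3, hp0]
        simp
      have h5 : aeval n p + y = ((2 : ℚ) : Ω) + (n * aeval n (divX p) + (y - 1)) := by
        rw [h4]
        push_cast
        ring
      rw [h5, Pool.Agent.Helper70.JN.v_eq_of_lt hu, hq 2 (by norm_num)]
      rw [hq 2 (by norm_num)]
      refine lt_of_le_of_lt (hu _ _) (max_lt ?_ hy)
      rw [map_mul]
      calc v n * v (aeval n (divX p)) ≤ m * 1 := mul_le_mul hvn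
            (Pool.Agent.Helper70.JN.aeval_le v hu hq n (hvn.trans hm1.le) _) (v.nonneg _) hm0
        _ < 1 := by rw [mul_one]; exact hm1
    have h3 : v (aeval n p - y) = v (n ^ K * aeval n u) := by
      rw [← h1, map_mul, h2, mul_one]
    rw [h3, map_mul]
    calc v (n ^ K) * v (aeval n u) ≤ m ^ K * 1 :=
          mul_le_mul (Pool.Agent.Helper70.JN.v_pow_le hvn K)
          (Pool.Agent.Helper70.JN.aeval_le v hu hq n (hvn.trans hm1.le) _) (v.nonneg _)
          (pow_nonneg hm0 _)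
      _ ≤ θ ^ k := by rw [mul_one]; exact hmK
  -- the monomials
  have hem : ∀ W, v (em g x (aeval n p) W - em g x y W) ≤ θ ^ k := by
    intro W
    unfold em
    split_ifs
    · rw [sub_self, map_zero]
      positivity
    · rw [← mul_sub, map_mul]
      calc v (x ^ ((W - (2 * g + 1)) / 2)) * v (aeval n p - y) ≤ 1 * θ ^ k :=
            mul_le_mul (hxp _) hτ (v.nonneg _) zero_le_one
        _ = θ ^ k := one_mul _
  have hψE : ∀ W, ψ (em g (1 + X) (aeval V p) W) = em g x (aeval n p) W := by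
    intro W
    rw [lfg_em_map ψ, hψX, hψY]
  -- the value of the combination
  obtain ⟨S, hS⟩ := hX
  have hval : φ e * em g x (aeval n p) w + ∑ j : Fin k, φ (c j) * em g x (aeval n p) (W j) =
      (x - 1) ^ k * ψ S := by
    have h1 := congrArg ψ hS
    rw [map_add, map_sum, map_mul, map_mul, map_pow, hψC, hψE] at h1
    have h2 : ψ X = x - 1 := by simp [hψ]
    rw [h2] at h1
    rw [← h1, add_comm]
    congr 1
    refine Finset.sum_congr rfl fun j _ => ?_
    rw [map_mul, hψC, hψE]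
  have hsmall : v (φ e * em g x y w + ∑ j : Fin k, φ (c j) * em g x y (W j)) ≤ θ ^ k := by
    have h1 : φ e * em g x y w + ∑ j : Fin k, φ (c j) * em g x y (W j) =
        (x - 1) ^ k * ψ S + (φ e * (em g x y w - em g x (aeval n p) w) +
          ∑ j : Fin k, φ (c j) * (em g x y (W j) - em g x (aeval n p) (W j))) := by
      rw [← hval]
      simp only [mul_sub, Finset.sum_sub_distrib]
      ring
    have hsub : ∀ W, v (em g x y W - em g x (aeval n p) W) ≤ θ ^ k := by
      intro W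
      rw [v.map_sub]
      exact hem W
    have hθk : 0 ≤ θ ^ k := by positivity
    rw [h1]
    refine (hu _ _).trans (max_le ?_ ((hu _ _).trans (max_le ?_ ?_)))
    · rw [map_mul]
      calc v ((x - 1) ^ k) * v (ψ S) ≤ θ ^ k * 1 :=
            mul_le_mul (Pool.Agent.Helper70.JN.v_pow_le hx k) (hψle S) (v.nonneg _) hθk
        _ = θ ^ k := mul_one _
    · rw [map_mul]
      calc v (φ e) * v (em g x y w - em g x (aeval n p) w) ≤ 1 * θ ^ k :=
            mul_le_mul (hφle e) (hsub _) (v.nonneg _) zero_le_one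
        _ = θ ^ k := one_mul _
    · refine lfg_sum v hu _ _ _ hθk fun j _ => ?_
      rw [map_mul]
      calc v (φ (c j)) * v (em g x y (W j) - em g x (aeval n p) (W j)) ≤ 1 * θ ^ k :=
            mul_le_mul (hφle _) (hsub _) (v.nonneg _) zero_le_one
        _ = θ ^ k := one_mul _
  refine ⟨fun j => φ (c j) / φ e, fun j => ⟨c j, e, he0, rfl⟩, ?_⟩
  have h1 : em g x y w + ∑ j : Fin k, φ (c j) / φ e * em g x y (W j) =
      (φ e * em g x y w + ∑ j : Fin k, φ (c j) * em g x y (W j)) / φ e := by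
    rw [add_div, mul_div_cancel_left₀ _ he0, Finset.sum_div]
    congr 1
    refine Finset.sum_congr rfl fun j _ => ?_
    ring
  rw [h1, map_div₀, he1, div_one]
  exact hsmall

end

/-- scaling -/
theorem lfg_scale {Ω : Type} [Field Ω] (g : ℕ) (x y R : Ω) (hR : R ≠ 0) (W : ℕ) (hW : Ok g W) :
    em g x y W = R ^ W * em g (x / R ^ 2) (y / R ^ (2 * g + 1)) W := by
  have h1 : x = R ^ 2 * (x / R ^ 2) := by field_simp
  have h2 : y = R ^ (2 * g + 1) * (y / R ^ (2 * g + 1)) := by field_simp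
  unfold em
  by_cases h : Even W
  · rw [if_pos h, if_pos h]
    conv_lhs => rw [h1]
    rw [mul_pow, ← pow_mul]
    congr 2
    obtain ⟨a, ha⟩ := h
    omega
  · rw [if_neg h, if_neg h]
    have hW' : 2 * g + 1 ≤ W := by
      rcases hW with h3 | h3
      · exact absurd h3 h
      · exact h3
    obtain ⟨a, ha⟩ := Nat.not_even_iff_odd.1 h
    have h3 : W = 2 * ((W - (2 * g + 1)) / 2) + (2 * g + 1) := by omega
    have h4 : R ^ W = (R ^ 2) ^ ((W - (2 * g + 1)) / 2) * R ^ (2 * g + 1) := by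
      rw [← pow_mul, ← pow_add, ← h3]
    rw [h4]
    conv_lhs => rw [h1, h2]
    rw [mul_pow]
    ring

theorem LFG (hCUSG : ST_CUSG) (hBIN : ST_BIN) : ST_LFG := by
  intro F Ω _ _ _ _ v K g k f β x y R W w hUl hc hRK hk hf hfd hyx hR hβ hx hy hW hok hokw
  obtain ⟨hu, hq⟩ := hUl
  have hR0 : R ≠ 0 := by
    intro h
    rw [h, map_zero] at hR
    exact (Real.exp_pos 1).ne hR
  have hRn : ∀ n : ℕ, v (R ^ n) = Real.exp n := by
    intro n
    rw [map_pow, hR, ← Real.exp_nat_mul, mul_one]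
  set θ : ℝ := Real.exp (β - 2) with hθ
  have hθ1 : θ < 1 := by
    rw [hθ, Real.exp_lt_one_iff]
    linarith
  set d : Fin (2 * g + 1) → Ω := fun j =>
    algebraMap F Ω (f.coeff j) * R ^ (2 * (j : ℕ)) / R ^ (2 * (2 * g + 1)) with hd
  have hdK : ∀ j, d j ∈ K := by
    intro j
    exact K.div_mem (K.mul_mem (K.algebraMap_mem _) (pow_mem hRK _)) (pow_mem hRK _)
  have hd1 : ∀ j, v (d j) < 1 := by
    intro j
    have h1 : v (algebraMap F Ω (f.coeff j)) ≤ 1 := by
      by_cases h0 : f.coeff j = 0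
      · rw [h0, map_zero, map_zero]
        exact zero_le_one
      · exact (hc _ h0).le
    have hj : (j : ℕ) < 2 * g + 1 := j.2
    rw [hd]
    show v (algebraMap F Ω (f.coeff j) * R ^ (2 * (j : ℕ)) / R ^ (2 * (2 * g + 1))) < 1
    rw [map_div₀, map_mul, hRn, hRn, div_lt_one (Real.exp_pos _)]
    calc v (algebraMap F Ω (f.coeff j)) * Real.exp ((2 * (j : ℕ) : ℕ) : ℝ)
        ≤ 1 * Real.exp ((2 * (j : ℕ) : ℕ) : ℝ) :=
          mul_le_mul_of_nonneg_right h1 (Real.exp_pos _).le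
      _ < Real.exp ((2 * (2 * g + 1) : ℕ) : ℝ) := by
          rw [one_mul, Real.exp_lt_exp]
          exact_mod_cast (by omega : 2 * (j : ℕ) < 2 * (2 * g + 1))
  have hE : (y / R ^ (2 * g + 1)) ^ 2 = (x / R ^ 2) ^ (2 * g + 1) +
      ∑ j : Fin (2 * g + 1), d j * (x / R ^ 2) ^ (j : ℕ) := by
    have h1 : aeval x f = x ^ (2 * g + 1) +
        ∑ j : Fin (2 * g + 1), algebraMap F Ω (f.coeff j) * x ^ (j : ℕ) := by
      conv_lhs => rw [hf.as_sum]
      rw [map_add, map_pow, aeval_X, map_sum, hfd, Finset.sum_range]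
      congr 1
      refine Finset.sum_congr rfl fun j _ => ?_
      rw [map_mul, aeval_C, map_pow, aeval_X]
    have hRR : R ^ (2 * (2 * g + 1)) ≠ 0 := pow_ne_zero _ hR0
    rw [div_pow, ← pow_mul, mul_comm (2 * g + 1) 2, hyx, h1, add_div, Finset.sum_div, div_pow,
      ← pow_mul]
    congr 1
    refine Finset.sum_congr rfl fun j _ => ?_
    rw [hd]
    show algebraMap F Ω (f.coeff j) * x ^ (j : ℕ) / R ^ (2 * (2 * g + 1)) =
      algebraMap F Ω (f.coeff j) * R ^ (2 * (j : ℕ)) / R ^ (2 * (2 * g + 1)) *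
        (x / R ^ 2) ^ (j : ℕ)
    rw [div_pow, ← pow_mul]
    have hRj : R ^ (2 * (j : ℕ)) ≠ 0 := pow_ne_zero _ hR0
    field_simp
  have hx' : v (x / R ^ 2 - 1) ≤ θ := by
    have h1 : x / R ^ 2 - 1 = (x - R ^ 2) / R ^ 2 := by field_simp
    rw [h1, map_div₀, hRn, div_le_iff₀ (Real.exp_pos _), hθ, ← Real.exp_add]
    refine hx.trans (le_of_eq ?_)
    congr 1
    push_cast
    ring
  have hy' : v (y / R ^ (2 * g + 1) - 1) < 1 := by
    have hRR : R ^ (2 * g + 1) ≠ 0 := pow_ne_zero _ hR0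
    have h1 : y / R ^ (2 * g + 1) - 1 = (y - R ^ (2 * g + 1)) / R ^ (2 * g + 1) := by
      field_simp
    rw [h1, map_div₀, hRn, div_lt_one (Real.exp_pos _)]
    push_cast
    exact hy
  obtain ⟨c, hcK, hcs⟩ := lfg1 v hu hq hBIN hCUSG g k hk θ (Real.exp_pos _) hθ1
    (x / R ^ 2) (y / R ^ (2 * g + 1)) d hE hx' hd1 hy' W w hW (fun j => (hok j).1)
  have hpK : ∀ P : MvPolynomial (Fin (2 * g + 1)) ℚ, MvPolynomial.aeval d P ∈ K := by
    intro P
    induction P using MvPolynomial.induction_on with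
    | C a =>
      rw [MvPolynomial.aeval_C, eq_ratCast]
      exact SubfieldClass.ratCast_mem K a
    | add p q hp hq' =>
      rw [map_add]
      exact K.add_mem hp hq'
    | mul_X p j hp =>
      rw [map_mul, MvPolynomial.aeval_X]
      exact K.mul_mem hp (hdK j)
  have hcK' : ∀ j, c j ∈ K := by
    intro j
    obtain ⟨a, b, -, h⟩ := hcK j
    rw [h]
    exact K.div_mem (hpK a) (hpK b)
  refine ⟨fun j => c j * R ^ (w - W j), fun j => K.mul_mem (hcK' j) (pow_mem hRK _), ?_⟩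
  have h1 : em g x y w + ∑ j : Fin k, c j * R ^ (w - W j) * em g x y (W j) =
      R ^ w * (em g (x / R ^ 2) (y / R ^ (2 * g + 1)) w +
        ∑ j : Fin k, c j * em g (x / R ^ 2) (y / R ^ (2 * g + 1)) (W j)) := by
    rw [mul_add, Finset.mul_sum, lfg_scale g x y R hR0 w hokw]
    congr 1
    refine Finset.sum_congr rfl fun j _ => ?_
    rw [lfg_scale g x y R hR0 (W j) (hok j).1]
    have h3 : R ^ w = R ^ (w - W j) * R ^ (W j) := by
      rw [← pow_add]
      congr 1
      have := (hok j).2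
      omega
    rw [h3]
    ring
  rw [h1, map_mul, hRn]
  calc Real.exp (w : ℝ) * _ ≤ Real.exp (w : ℝ) * θ ^ k :=
        mul_le_mul_of_nonneg_left hcs (Real.exp_pos _).le
    _ = Real.exp (w + k * (β - 2)) := by
        rw [hθ, ← Real.exp_nat_mul, ← Real.exp_add]

end Pool.Agent.Helper71.HN
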