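import Pool.Agent.Helper71.HN.SheetZ
import Pool.Agent.Helper20.HN.LFG

/-! Project HZ, row LFGZ: the local form at one place, any size of the place
(after `Helper20.HN.LFG`). -/

set_option autoImplicit false

namespace Pool.Agent.Helper20.HZ

open Polynomial Pool.Agent.Helper71.JN Pool.Agent.Helper71.HN Pool.Agent.Helper71.HZ

theorem LFGZ (hCUSG : ST_CUSG) (hBIN : ST_BIN) : ST_LFGZ := by
  intro F Ω _ _ _ _ v K g k f lam β x y R W w hUl hc hRK hk hf hfd hyx hlam hR hβ hx hy hW hok hokw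
  obtain ⟨hu, hq⟩ := hUl
  have hR0 : R ≠ 0 := by
    intro h
    rw [h, map_zero] at hR
    exact (Real.exp_pos lam).ne hR
  have hRn : ∀ n : ℕ, v (R ^ n) = Real.exp (n * lam) := by
    intro n
    rw [map_pow, hR, ← Real.exp_nat_mul]
  set θ : ℝ := Real.exp (β - 2 * lam) with hθ
  have hθ1 : θ < 1 := by
    rw [hθ, Real.exp_lt_one_iff]
    linarith
  set d : Fin (2 * g + 1) → Ω := fun j =>
    algebraMap F Ω (f.coeff j) * R ^ (2 * (j : ℕ)) / R ^ (2 * (2 * g + 1)) with hd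
  have hdK : ∀ j, d j ∈ K := by
    intro j
    exact K.div_mem (K.mul_mem (K.algebraMap_mem _) (pow_mem hRK _)) (pow_mem hRK _)
  have hd1 : ∀ j, v (d j) < 1 := by
    intro j
    have h1 : v (algebraMap F Ω (f.coeff j)) ≤ 1 := by
      by_cases h0 : f.coeff j = 0
      · rw [h0, map_zero, map_zero]
        exact zero_le_one
      · exact (hc _ h0).le
    have hj : (j : ℕ) < 2 * g + 1 := j.2
    rw [hd]
    show v (algebraMap F Ω (f.coeff j) * R ^ (2 * (j : ℕ)) / R ^ (2 * (2 * g + 1))) < 1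
    rw [map_div₀, map_mul, hRn, hRn, div_lt_one (Real.exp_pos _)]
    calc v (algebraMap F Ω (f.coeff j)) * Real.exp (((2 * (j : ℕ) : ℕ) : ℝ) * lam)
        ≤ 1 * Real.exp (((2 * (j : ℕ) : ℕ) : ℝ) * lam) :=
          mul_le_mul_of_nonneg_right h1 (Real.exp_pos _).le
      _ < Real.exp (((2 * (2 * g + 1) : ℕ) : ℝ) * lam) := by
          rw [one_mul, Real.exp_lt_exp]
          exact mul_lt_mul_of_pos_right
            (by exact_mod_cast (by omega : 2 * (j : ℕ) < 2 * (2 * g + 1))) hlam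
  have hE : (y / R ^ (2 * g + 1)) ^ 2 = (x / R ^ 2) ^ (2 * g + 1) +
      ∑ j : Fin (2 * g + 1), d j * (x / R ^ 2) ^ (j : ℕ) := by
    have h1 : aeval x f = x ^ (2 * g + 1) +
        ∑ j : Fin (2 * g + 1), algebraMap F Ω (f.coeff j) * x ^ (j : ℕ) := by
      conv_lhs => rw [hf.as_sum]
      rw [map_add, map_pow, aeval_X, map_sum, hfd, Finset.sum_range]
      congr 1
      refine Finset.sum_congr rfl fun j _ => ?_
      rw [map_mul, aeval_C, map_pow, aeval_X]
    have hRR : R ^ (2 * (2 * g + 1)) ≠ 0 := pow_ne_zero _ hR0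
    rw [div_pow, ← pow_mul, mul_comm (2 * g + 1) 2, hyx, h1, add_div, Finset.sum_div, div_pow,
      ← pow_mul]
    congr 1
    refine Finset.sum_congr rfl fun j _ => ?_
    rw [hd]
    show algebraMap F Ω (f.coeff j) * x ^ (j : ℕ) / R ^ (2 * (2 * g + 1)) =
      algebraMap F Ω (f.coeff j) * R ^ (2 * (j : ℕ)) / R ^ (2 * (2 * g + 1)) *
        (x / R ^ 2) ^ (j : ℕ)
    rw [div_pow, ← pow_mul]
    have hRj : R ^ (2 * (j : ℕ)) ≠ 0 := pow_ne_zero _ hR0
    field_simp
  have hx' : v (x / R ^ 2 - 1) ≤ θ := by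
    have h1 : x / R ^ 2 - 1 = (x - R ^ 2) / R ^ 2 := by field_simp
    rw [h1, map_div₀, hRn, div_le_iff₀ (Real.exp_pos _), hθ, ← Real.exp_add]
    refine hx.trans (le_of_eq ?_)
    congr 1
    push_cast
    ring
  have hy' : v (y / R ^ (2 * g + 1) - 1) < 1 := by
    have hRR : R ^ (2 * g + 1) ≠ 0 := pow_ne_zero _ hR0
    have h1 : y / R ^ (2 * g + 1) - 1 = (y - R ^ (2 * g + 1)) / R ^ (2 * g + 1) := by
      field_simp
    rw [h1, map_div₀, hRn, div_lt_one (Real.exp_pos _)]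
    push_cast
    exact hy
  obtain ⟨c, hcK, hcs⟩ := lfg1 v hu hq hBIN hCUSG g k hk θ (Real.exp_pos _) hθ1
    (x / R ^ 2) (y / R ^ (2 * g + 1)) d hE hx' hd1 hy' W w hW (fun j => (hok j).1)
  have hpK : ∀ P : MvPolynomial (Fin (2 * g + 1)) ℚ, MvPolynomial.aeval d P ∈ K := by
    intro P
    induction P using MvPolynomial.induction_on with
    | C a =>
      rw [MvPolynomial.aeval_C, eq_ratCast]
      exact SubfieldClass.ratCast_mem K a
    | add p q hp hq' =>
      rw [map_add]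
      exact K.add_mem hp hq'
    | mul_X p j hp =>
      rw [map_mul, MvPolynomial.aeval_X]
      exact K.mul_mem hp (hdK j)
  have hcK' : ∀ j, c j ∈ K := by
    intro j
    obtain ⟨a, b, -, h⟩ := hcK j
    rw [h]
    exact K.div_mem (hpK a) (hpK b)
  refine ⟨fun j => c j * R ^ (w - W j), fun j => K.mul_mem (hcK' j) (pow_mem hRK _), ?_⟩
  have h1 : em g x y w + ∑ j : Fin k, c j * R ^ (w - W j) * em g x y (W j) =
      R ^ w * (em g (x / R ^ 2) (y / R ^ (2 * g + 1)) w +
        ∑ j : Fin k, c j * em g (x / R ^ 2) (y / R ^ (2 * g + 1)) (W j)) := by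
    rw [mul_add, Finset.mul_sum, lfg_scale g x y R hR0 w hokw]
    congr 1
    refine Finset.sum_congr rfl fun j _ => ?_
    rw [lfg_scale g x y R hR0 (W j) (hok j).1]
    have h3 : R ^ w = R ^ (w - W j) * R ^ (W j) := by
      rw [← pow_add]
      congr 1
      have := (hok j).2
      omega
    rw [h3]
    ring
  rw [h1, map_mul, hRn]
  calc Real.exp ((w : ℝ) * lam) * _ ≤ Real.exp ((w : ℝ) * lam) * θ ^ k :=
        mul_le_mul_of_nonneg_left hcs (Real.exp_pos _).le
    _ = Real.exp (w * lam + k * (β - 2 * lam)) := by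
        rw [hθ, ← Real.exp_nat_mul, ← Real.exp_add]

end Pool.Agent.Helper20.HZ
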