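import Pool.Agent.Helper77.HE.SheetG
import Pool.Agent.Helper20.HN.T1M

/-! Project HG, row T1G: the theorem over a Galois number field, even degree, rational points with
denominators, closeness in the mean over the places to roots of polynomials of small height. -/

set_option autoImplicit false

namespace Pool.Agent.Helper20.HM

open Polynomial Filter Finset Pool.Agent.Helper70.SUB Pool.Agent.Helper77.SUBK
  Pool.Agent.Helper70.SUBL Pool.Agent.Helper70.SUBW Pool.Agent.Helper71.JN Pool.Agent.Helper71.HN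
  Pool.Agent.Helper71.HZ Pool.Agent.Helper71.HE Pool.Agent.Helper71.HO Pool.Agent.Helper77.HM
  Pool.Agent.Helper2.HE

/-- the data of one point -/
structure DatG (M : Type) [Field M] [NumberField M] (t : ℕ) where
  /-- the polynomial -/
  F : M[X]
  /-- the first coordinate -/
  x : M
  /-- the second coordinate -/
  y : M
  /-- a square root of the leading coefficient -/
  sq : M
  /-- the height of the polynomial -/
  H : ℝ
  /-- the scale -/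
  T : ℝ
  /-- a denominator -/
  m : ℕ
  /-- coefficients of the numerators -/
  c : Option ℕ → (M ≃ₐ[ℚ] M) → Fin t → M
  /-- coefficients of the denominators -/
  d : Option ℕ → (M ≃ₐ[ℚ] M) → Fin t → M
  /-- terms of the numerators -/
  a : Option ℕ → (M ≃ₐ[ℚ] M) → Fin t → M
  /-- terms of the denominators -/
  b : Option ℕ → (M ≃ₐ[ℚ] M) → Fin t → M
  /-- coefficients of the polynomials -/
  e : Option ℕ → (M ≃ₐ[ℚ] M) → ℕ → M
  /-- the bounds -/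
  u : Option ℕ → (M ≃ₐ[ℚ] M) → ℝ

theorem T1G (hSLW : ST_SLW) (hSPH : ST_SPH) (hBRGG : ST_BRGG) : ST_T1G := by
  classical
  intro M _ _ _ S S₀ P k t g κ δ B hS hSS hg hδ hB
  by_contra hcon
  have hex : ∀ j : ℕ, ∃ s : DatG M t, (0 ≤ s.H ∧ s.F.natDegree = 2 * g + 2 ∧ s.F.Separable ∧
      s.y ^ 2 = s.F.eval s.x ∧ s.F.coeff (2 * g + 2) = s.sq ^ 2 ∧
      (∀ i, HBZ P.emb (Real.exp (κ * (s.H + 1))) (s.F.coeff i)) ∧ s.m ≠ 0 ∧
      SI S₀ ((s.m : M) * s.x) ∧ (s.m : ℝ) ≤ Real.exp (B * s.T) ∧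
      (∀ o ∈ plc S, ∀ σ : M ≃ₐ[ℚ] M, P.nv o (σ s.x) ≤ Real.exp (B * s.T)) ∧
      ¬ HBZ P.emb (Real.exp (s.T / B)) s.x ∧
      (∀ o ∈ plc S₀, ∀ σ, Real.exp (-(B * s.T)) ≤ s.u o σ ∧
        (1 ≤ k o σ → (∀ i, HBZ P.emb (Real.exp (κ * (s.H + 1))) (s.e o σ i)) ∧
          P.nv o (σ ((polD M (k o σ) (s.e o σ)).eval s.x)) ≤ s.u o σ ^ k o σ) ∧
        (k o σ = 0 → 1 ≤ s.u o σ ∧ (∀ i, SV S (s.a o σ i)) ∧ (∀ i, SV S (s.b o σ i)) ∧
          (∀ i, HBZ P.emb (Real.exp (κ * (s.H + 1))) (s.c o σ i)) ∧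
          (∀ i, HBZ P.emb (Real.exp (κ * (s.H + 1))) (s.d o σ i)) ∧
          HBZ P.emb (Real.exp (B * s.T)) (∑ i, s.c o σ i * s.a o σ i) ∧
          HBZ P.emb (Real.exp (B * s.T)) (∑ i, s.d o σ i * s.b o σ i) ∧
          ∑ i, s.d o σ i * s.b o σ i ≠ 0 ∧
          P.nv o (σ (s.x - (∑ i, s.c o σ i * s.a o σ i) / ∑ i, s.d o σ i * s.b o σ i)) ≤
            s.u o σ)) ∧
      4 * (Fintype.card (M ≃ₐ[ℚ] M) : ℝ) * Real.log s.m +
        ∑ o ∈ plc S₀, ∑ σ : M ≃ₐ[ℚ] M, Real.log (s.u o σ) + δ * s.T ≤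
        ∑ o ∈ plc S₀, ∑ σ : M ≃ₐ[ℚ] M, Real.log (max 1 (P.nv o (σ s.x)))) ∧
      ((j : ℝ) + 1) * (s.H + 1) < s.T := by
    intro j
    by_contra h
    apply hcon
    refine ⟨(j : ℝ) + 1, by positivity, fun F x y sq H T m c d a b e u h0 h1 h2 h3 h4 h5 h6 h7 h8
      h9 h10 h11 h12 => ?_⟩
    by_contra h'
    exact h ⟨⟨F, x, y, sq, H, T, m, c, d, a, b, e, u⟩,
      ⟨h0, h1, h2, h3, h4, h5, h6, h7, h8, h9, h10, h11, h12⟩, not_le.1 h'⟩
  choose s hs hlt using hex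
  obtain ⟨φ, hφ⟩ : ∃ φ : Ultrafilter ℕ, (φ : Filter ℕ) ≤ atTop := by
    refine ⟨hyperfilter ℕ, ?_⟩
    rw [← Nat.cofinite_eq_atTop]
    exact hyperfilter_le_cofinite
  set F : ℕ → M[X] := fun j => (s j).F with hF
  set x : ℕ → M := fun j => (s j).x with hx
  set y : ℕ → M := fun j => (s j).y with hy
  set sq : ℕ → M := fun j => (s j).sq with hsq
  set H : ℕ → ℝ := fun j => (s j).H with hH
  set m : ℕ → ℕ := fun j => (s j).m with hm
  set c : Option ℕ → (M ≃ₐ[ℚ] M) → Fin t → ℕ → M := fun o σ i j => (s j).c o σ i with hc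
  set d : Option ℕ → (M ≃ₐ[ℚ] M) → Fin t → ℕ → M := fun o σ i j => (s j).d o σ i with hd
  set a : Option ℕ → (M ≃ₐ[ℚ] M) → Fin t → ℕ → M := fun o σ i j => (s j).a o σ i with ha
  set b : Option ℕ → (M ≃ₐ[ℚ] M) → Fin t → ℕ → M := fun o σ i j => (s j).b o σ i with hb
  set e : Option ℕ → (M ≃ₐ[ℚ] M) → ℕ → ℕ → M := fun o σ i j => (s j).e o σ i with he
  set u : Option ℕ → (M ≃ₐ[ℚ] M) → ℕ → ℝ := fun o σ j => (s j).u o σ with hu
  set p : Option ℕ → (M ≃ₐ[ℚ] M) → ℕ → M := fun o σ j => ∑ i, c o σ i j * a o σ i j with hp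
  set q : Option ℕ → (M ≃ₐ[ℚ] M) → ℕ → M := fun o σ j => ∑ i, d o σ i j * b o σ i j with hq
  set L : ℕ → ℝ := fun j => (s j).T with hL
  set l : ℕ → M := fun j => (F j).coeff (2 * g + 2) with hl
  have f0 : ∀ j, 0 ≤ H j := fun j => (hs j).1
  have f1 : ∀ j, (F j).natDegree = 2 * g + 2 := fun j => (hs j).2.1
  have f2 : ∀ j, (F j).Separable := fun j => (hs j).2.2.1
  have f3 : ∀ j, y j ^ 2 = (F j).eval (x j) := fun j => (hs j).2.2.2.1
  have f4 : ∀ j, (F j).coeff (2 * g + 2) = sq j ^ 2 := fun j => (hs j).2.2.2.2.1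
  have f5 : ∀ j i, HBZ P.emb (Real.exp (κ * (H j + 1))) ((F j).coeff i) :=
    fun j => (hs j).2.2.2.2.2.1
  have f6 : ∀ j, m j ≠ 0 := fun j => (hs j).2.2.2.2.2.2.1
  have f7 : ∀ j, SI S₀ ((m j : M) * x j) := fun j => (hs j).2.2.2.2.2.2.2.1
  have f8 : ∀ j, (m j : ℝ) ≤ Real.exp (B * L j) := fun j => (hs j).2.2.2.2.2.2.2.2.1
  have f9 : ∀ j, ∀ o ∈ plc S, ∀ σ : M ≃ₐ[ℚ] M, P.nv o (σ (x j)) ≤ Real.exp (B * L j) :=
    fun j => (hs j).2.2.2.2.2.2.2.2.2.1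
  have f10 : ∀ j, ¬ HBZ P.emb (Real.exp (L j / B)) (x j) :=
    fun j => (hs j).2.2.2.2.2.2.2.2.2.2.1
  have hu1 : ∀ o ∈ plc S₀, ∀ σ j, Real.exp (-(B * L j)) ≤ u o σ j :=
    fun o ho σ j => ((hs j).2.2.2.2.2.2.2.2.2.2.2.1 o ho σ).1
  have hV1 : ∀ o ∈ plc S₀, ∀ σ, 1 ≤ k o σ → ∀ j,
      (∀ i, HBZ P.emb (Real.exp (κ * (H j + 1))) (e o σ i j)) ∧
      P.nv o (σ ((polD M (k o σ) (fun i => e o σ i j)).eval (x j))) ≤ u o σ j ^ k o σ :=
    fun o ho σ hv j => ((hs j).2.2.2.2.2.2.2.2.2.2.2.1 o ho σ).2.1 hv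
  have hV2 : ∀ o ∈ plc S₀, ∀ σ, k o σ = 0 → ∀ j, 1 ≤ u o σ j ∧ (∀ i, SV S (a o σ i j)) ∧
      (∀ i, SV S (b o σ i j)) ∧
      (∀ i, HBZ P.emb (Real.exp (κ * (H j + 1))) (c o σ i j)) ∧
      (∀ i, HBZ P.emb (Real.exp (κ * (H j + 1))) (d o σ i j)) ∧
      HBZ P.emb (Real.exp (B * L j)) (p o σ j) ∧
      HBZ P.emb (Real.exp (B * L j)) (q o σ j) ∧ q o σ j ≠ 0 ∧
      P.nv o (σ (x j - p o σ j / q o σ j)) ≤ u o σ j :=
    fun o ho σ hv j => ((hs j).2.2.2.2.2.2.2.2.2.2.2.1 o ho σ).2.2 hv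
  have hmain : ∀ j, 4 * (Fintype.card (M ≃ₐ[ℚ] M) : ℝ) * Real.log (m j) +
      ∑ o ∈ plc S₀, ∑ σ : M ≃ₐ[ℚ] M, Real.log (u o σ j) + δ * L j ≤
      ∑ o ∈ plc S₀, ∑ σ : M ≃ₐ[ℚ] M, Real.log (max 1 (P.nv o (σ (x j)))) :=
    fun j => (hs j).2.2.2.2.2.2.2.2.2.2.2.2
  have hlt' : ∀ j : ℕ, ((j : ℝ) + 1) * (H j + 1) < L j := hlt
  have hLj : ∀ j : ℕ, (j : ℝ) + 1 ≤ L j := fun j => by
    have h1 := hlt' j
    have h2 := f0 j
    have h3 : ((j : ℝ) + 1) * 1 ≤ ((j : ℝ) + 1) * (H j + 1) :=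
      mul_le_mul_of_nonneg_left (by linarith) (by positivity)
    linarith
  -- the scale
  set X : ℕ → ℝ := fun j => Real.exp (L j) with hX
  have hXr : ∀ (j : ℕ) (e : ℝ), X j ^ e = Real.exp (e * L j) := fun j e => by
    rw [hX, mul_comm]
    exact (Real.exp_mul _ _).symm
  have hXlog : ∀ j, Real.log (X j) = L j := fun j => Real.log_exp _
  have hXX : Tendsto X (φ : Filter ℕ) atTop := by
    refine Tendsto.mono_left ?_ hφ
    refine Real.tendsto_exp_atTop.comp ?_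
    refine tendsto_atTop_mono hLj ?_
    exact tendsto_natCast_atTop_atTop.atTop_add tendsto_const_nhds
  have hE : ∀ K ε : ℝ, 0 < ε → ∀ᶠ j in (φ : Filter ℕ), Real.exp (K * (H j + 1)) ≤ X j ^ ε := by
    intro K ε hε
    obtain ⟨N, hN⟩ := exists_nat_ge (K / ε)
    filter_upwards [hφ (eventually_ge_atTop N)] with j h2
    have h4 : K / ε ≤ (j : ℝ) + 1 := by
      have : (N : ℝ) ≤ j := by exact_mod_cast h2
      linarith
    rw [div_le_iff₀ hε] at h4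
    rw [hXr]
    refine Real.exp_le_exp.2 ?_
    have h5 : K * (H j + 1) ≤ ((j : ℝ) + 1) * ε * (H j + 1) :=
      mul_le_mul_of_nonneg_right h4 (by linarith [f0 j])
    have h6 : ε * (((j : ℝ) + 1) * (H j + 1)) ≤ ε * L j :=
      mul_le_mul_of_nonneg_left (hlt' j).le hε.le
    linarith
  -- slow sequences
  obtain ⟨_, hops, hinv, _, _, _, _, _, _, _, _, hcd, _⟩ := hSLW M S P φ X hS hXX
  have hslH : ∀ z : ℕ → M, (∀ j, HBZ P.emb (Real.exp (κ * (H j + 1))) (z j)) →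
      Slw P φ X z := by
    intro z hz ε hε
    filter_upwards [hE κ ε hε] with j hj
    obtain ⟨⟨D, h1, h2, h3⟩, h4⟩ := hz j
    exact ⟨D, h1, h2.trans hj, h3, fun σ => by rw [P.inf]; exact (h4 σ).trans hj⟩
  have hslF : ∀ i, Slw P φ X (fun j => (F j).coeff i) := fun i => hslH _ fun j => f5 j i
  have hsli : Slw P φ X (fun j => (l j)⁻¹) := hinv _ (hslF (2 * g + 2))
  have hsla : ∀ i, Slw P φ X (fun j => (F j).coeff i * (l j)⁻¹) := fun i =>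
    (hops _ _ (hslF i) hsli).2
  -- moderate sums
  have hHB : ∀ z : ℕ → M, (∀ j, HBZ P.emb (Real.exp (B * L j)) (z j)) →
      ∀ᶠ j in (φ : Filter ℕ), HB P (X j ^ B) (z j) := by
    intro z hz
    refine Eventually.of_forall fun j v hv σ => ?_
    refine (Pool.Agent.Helper94.SUBW.SP_nv hS (H := Real.exp (B * L j)) ?_ hv
      σ).trans (hXr j B).ge
    obtain ⟨⟨D, h1, h2, h3⟩, h4⟩ := hz j
    exact ⟨D, h1, h2, h3, fun τ => by rw [P.inf]; exact h4 τ⟩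
  have hpM : ∀ o ∈ plc S₀, ∀ σ, k o σ = 0 → SpM P φ X (p o σ) ∧ SpM P φ X (q o σ) := by
    intro o ho σ hv
    constructor
    · refine hSPH M S P φ X (p o σ) _ hS hXX ?_
        (hHB (p o σ) fun j => (hV2 o ho σ hv j).2.2.2.2.2.1)
      exact ⟨t, c o σ, a o σ, fun i => hslH _ fun j => (hV2 o ho σ hv j).2.2.2.1 i,
        fun i => Eventually.of_forall fun j => (hV2 o ho σ hv j).2.1 i,
        Eventually.of_forall fun j => rfl⟩
    · refine hSPH M S P φ X (q o σ) _ hS hXX ?_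
        (hHB (q o σ) fun j => (hV2 o ho σ hv j).2.2.2.2.2.2.1)
      exact ⟨t, d o σ, b o σ, fun i => hslH _ fun j => (hV2 o ho σ hv j).2.2.2.2.1 i,
        fun i => Eventually.of_forall fun j => (hV2 o ho σ hv j).2.2.1 i,
        Eventually.of_forall fun j => rfl⟩
  -- denominators
  have hev : ∀ j, (y j * (sq j)⁻¹) ^ 2 =
      (polD M (2 * g + 2) (fun i => (F j).coeff i * (l j)⁻¹)).eval (x j) :=
    fun j => pol_ev (f1 j) (f3 j) (f4 j)
  have hX1 : ∀ j, 1 ≤ X j := fun j => Real.one_le_exp (by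
    have h1 := hLj j
    have h2 : (0 : ℝ) ≤ j := Nat.cast_nonneg j
    linarith)
  have hSx : IntT S₀ φ X (fun j => (m j : M) * x j) := by
    intro ε hε
    refine Eventually.of_forall fun j => ⟨1, one_ne_zero, ?_, ?_⟩
    · rw [Nat.cast_one]
      exact Real.one_le_rpow (hX1 j) hε.le
    · rw [Nat.cast_one, one_mul]
      exact f7 j
  have hSy : IntT S₀ φ X (fun j => (m j : M) ^ (g + 1) * (y j * (sq j)⁻¹)) := by
    intro ε hε
    filter_upwards [hcd ℕ (range (2 * g + 2)) (fun i j => (F j).coeff i * (l j)⁻¹)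
      (fun i _ => hsla i) ε hε] with j h1
    obtain ⟨D, h3, h4, h5⟩ := h1
    obtain ⟨n, hn, hn'⟩ := f7 j
    refine ⟨D, h3, h4, n ^ (g + 1), Pool.Agent.Helper34.HO.Sm_pow hn _, ?_⟩
    have h9 : ((n ^ (g + 1) : ℕ) : M) * ((D : M) * ((m j : M) ^ (g + 1) * (y j * (sq j)⁻¹))) =
        (D : M) * (((n * m j : ℕ) : M) ^ (g + 1) * (y j * (sq j)⁻¹)) := by
      push_cast
      ring
    rw [h9]
    have h10 : IsIntegral ℤ (((n * m j : ℕ) : M) * x j) := by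
      push_cast
      rw [mul_assoc]
      exact hn'
    exact int_yE h5 h10 (hev j)
  have hnsl : ¬ Slw P φ X x := by
    intro h
    obtain ⟨j, D, h1, h2, h3, h4⟩ := (h (1 / B) (by positivity)).exists
    rw [hXr, one_div, inv_mul_eq_div] at h2
    refine f10 j ⟨⟨D, h1, h2, h3⟩, fun σ => ?_⟩
    have h5 := h4 σ
    rw [hXr, one_div, inv_mul_eq_div, P.inf] at h5
    exact h5
  refine hBRGG M S S₀ P φ k g (fun i j => (F j).coeff i * (l j)⁻¹) m x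
    (fun j => y j * (sq j)⁻¹) X p q e u B δ hS hSS hg hδ hXX hpM
    (fun o ho σ hv i _ => hslH _ fun j => (hV1 o ho σ hv j).1 i) (fun i _ => hsla i) hSx hSy
    hnsl ?_
  refine Eventually.of_forall fun j => ?_
  refine ⟨pol_sep (f1 j) (f2 j), hev j, f6 j, ?_, fun o ho σ => ?_,
    fun o ho σ => ⟨?_, fun hv => (hV1 o ho σ hv j).2, fun hv => ?_⟩, ?_⟩
  · rw [hXr]
    exact f8 j
  · rw [hXr]
    exact f9 j o ho σ
  · rw [hXr, neg_mul]
    exact hu1 o ho σ j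
  · obtain ⟨e1, _, _, _, _, _, _, e2, e3⟩ := hV2 o ho σ hv j
    exact ⟨e1, e2, e3⟩
  · rw [hXlog]
    exact hmain j

end Pool.Agent.Helper20.HM
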