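import Pool.Agent.Helper71.HN.SheetY
import Pool.Agent.Helper20.HN.T1G1

/-! Project HX, row T1X: the statements of the sheets Y and G1 are the same. -/

set_option autoImplicit false

namespace Pool.Agent.Helper20.HX

open Pool.Agent.Helper70.SUBW Pool.Agent.Helper71.JN

theorem T1X (hSLW : ST_SLW) (hSPH : ST_SPH) (hBRGX : Pool.Agent.Helper71.HX.ST_BRGX) :
    Pool.Agent.Helper71.HX.ST_T1X :=
  Pool.Agent.Helper20.HM.T1G1 hSLW hSPH hBRGX

end Pool.Agent.Helper20.HX
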